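import Pool.Agent.Run7.h536.CE9

set_option autoImplicit false

/-!
# Primes `p` for which `a_l p² + b_l p + c_l`, `l = 1, …, s`, are primes: thin `a_l`, ALL `b_l`, almost all `c_l`

Let the vector `(a_1, …, a_s)` run through a family such that each `a_l` is of size at most `H_l` and has minimal additive
energy of some order up to a power of `log X` (for example: integers whose digits satisfy arbitrary restrictions,
`k ^ e` with `k ≤ H_l ^ (1/e)`, primes, the values of a fixed polynomial; the `a_l` may be independent or depend on each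
other). For almost all members of the family, UNIFORMLY in ALL linear coefficients `|b_l| ≤ B H_l X`, and for almost all
vectors of constant terms `|c_l| ≤ B H_l X²`, the number of the primes `p ≤ M` for which `a_l p² + b_l p + c_l`,
`l = 1, …, s`, are all primes is given by the asymptotic formula of Bateman and Horn with the explicit constant, for all
`M ≤ X`. The linear coefficients `b_l` may depend on the `a_l` and on all the data in an arbitrary way.

Proof. A new bound for the additive energy of a family of values `a_i m² + b_i m`, `b_i` arbitrary (`Run7.h536.CE1` to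
`CE4`), with the circle method for correlations of primes with families of nearly minimal energy (starting files,
`TH872.Sq`, `R459.fam_near_fin`), with weights, a maximal choice of the bad `b`, a grid for the initial segments (`CE5`,
`CE6`); the main term over primes is computed with the fundamental lemma of the sieve and the theorem of Siegel and
Walfisz (`LD3`).
-/

namespace Pool.Agent.Results.MP_82233c_nt.AllLinearCoefficients

open Finset Polynomial

/-- The additive energy of order `h` of a family of integers: the number of the solutions of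
`v(i_1) + ⋯ + v(i_h) = v(j_1) + ⋯ + v(j_h)`. -/
noncomputable def energy (h : ℕ) {ι : Type} [Fintype ι] (v : ι → ℤ) : ℕ :=
  Nat.card {q : (Fin h → ι) × (Fin h → ι) // ∑ j, v (q.1 j) = ∑ j, v (q.2 j)}

/-- The number `ρ*(p)` of the NONZERO residues `x` modulo `p` for which `p` divides one of the `a_l x² + b_l x + c_l`. -/
noncomputable def rho {s : ℕ} (a b c : Fin s → ℤ) (p : ℕ) : ℕ :=
  ((range p).filter (fun x : ℕ => ¬ p ∣ x ∧ (p : ℤ) ∣ ∏ l, (a l * (x : ℤ) ^ 2 + b l * x + c l))).card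

/-- The singular product `∏_{p ≤ z} (1 - 1/p)⁻ˢ (1 - ρ*(p)/(p - 1))`. For `s = 1` and `x² + x + 1` the factor of `p > 3` is
`(1 - 1/p)⁻¹ (1 - (1 + χ(p))/(p - 1)) = (1 - 1/p)⁻² (1 - (2 + χ(p))/p)`. -/
noncomputable def singular {s : ℕ} (a b c : Fin s → ℤ) (z : ℕ) : ℝ :=
  ∏ p ∈ (Icc 1 z).filter Nat.Prime, (((1 - 1 / (p : ℝ)) ^ s)⁻¹ * (1 - (rho a b c p : ℝ) / (p - 1)))

/-- Functions between `log` on the primes and the von Mangoldt function. -/
def PrimeLike (L : ℕ → ℝ) : Prop :=
  ∀ n, (if n.Prime then Real.log n else 0) ≤ L n ∧ L n ≤ ArithmeticFunction.vonMangoldt n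

open Classical in
/-- The number of the vectors of integers `c_l`, `|c_l| ≤ N_l`, such that for some `M ≤ X` the sum over `1 ≤ m ≤ M` of
`L(m) L(|a_1 m² + b_1 m + c_1|) ⋯ L(|a_s m² + b_s m + c_s|)` differs from `M ∏_{p ≤ z} (1 - 1/p)⁻ˢ (1 - ρ*(p)/(p - 1))` by
more than `δ`. -/
noncomputable def exceptions {s : ℕ} (N : Fin s → ℕ) (X z : ℕ) (L : ℕ → ℝ) (δ : ℝ) (a b : Fin s → ℤ) : ℕ :=
  ((Fintype.piFinset (fun l => Icc (-(N l : ℤ)) (N l))).filter (fun c : Fin s → ℤ => ∃ M : ℕ, M ≤ X ∧
    δ < |∑ m ∈ Icc 1 M, L m * ∏ l, L (a l * (m : ℤ) ^ 2 + b l * m + c l).natAbs - M * singular a b c z|)).card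

lemma quad_degree (a b : ℤ) : (Polynomial.C a * Polynomial.X ^ 2 + Polynomial.C b * Polynomial.X : ℤ[X]).natDegree ≤ 2 := by
  compute_degree

open Classical in
/-- Fix `s`, `h`, `r`, `B`, `C`, `U`. There is `B₀` such that for all `E` and all large `X`: let `H_l ≤ X ^ r`,
`X ≤ H_l ^ r`, let `(a_1(i), …, a_s(i))`, `i ∈ ι`, be a family of vectors of integers with `|a_l(i)| ≤ B H_l` such that
for all `l` the energy of order `h` of `a_l` is at most `(log X) ^ C |ι| ^ (2h) / H_l`, `z` an integer between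
`(log X) ^ B₀` and `(log X) ^ E`, and `L` a function between `log` on the primes and the von Mangoldt function. Then for
all but at most `|ι| / (log X) ^ U` of the `i ∈ ι`: for ALL vectors of integers `b_l` with `|b_l| ≤ B H_l X`, for all but at
most `(log X) ^ (-U) ∏ H_l X²` of the vectors of integers `c_l`, `|c_l| ≤ B H_l X²`: for all `M ≤ X` the sum over `m ≤ M` of
`L(m) ∏_l L(|a_l(i) m² + b_l m + c_l|)` is `M ∏_{p ≤ z} (1 - 1/p)⁻ˢ (1 - ρ*(p)/(p - 1))` up to `X / (log X) ^ U`. -/
theorem result (s h r B C U : ℕ) (hh : 1 ≤ h) (hr : 1 ≤ r) (hB : 1 ≤ B) :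
    ∃ B₀ : ℕ, ∀ E : ℕ, ∃ x₀ : ℕ, ∀ X : ℕ, x₀ ≤ X → ∀ H : Fin s → ℕ, (∀ l, H l ≤ X ^ r) → (∀ l, X ≤ H l ^ r) →
    ∀ (ι : Type) [Fintype ι] (a : Fin s → ι → ℤ), (∀ l i, |a l i| ≤ B * H l) →
    (∀ l, (energy h (a l) : ℝ) * H l ≤ Real.log X ^ C * (Fintype.card ι : ℝ) ^ (2 * h)) →
    ∀ z : ℕ, Real.log X ^ B₀ ≤ z → (z : ℝ) ≤ Real.log X ^ E → ∀ L : ℕ → ℝ, PrimeLike L →
    ((univ.filter (fun i : ι => ∃ b : Fin s → ℤ, (∀ l, |b l| ≤ B * (H l * X)) ∧
      (∏ l, ((H l * X ^ 2 : ℕ) : ℝ)) / Real.log X ^ U <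
        exceptions (fun l => B * (H l * X ^ 2)) X z L (X / Real.log X ^ U) (fun l => a l i) b)).card : ℝ) ≤
      Fintype.card ι / Real.log X ^ U := by
  obtain ⟨B0, h0⟩ := Pool.Agent.Run7.h536.CE.cross_prime s (fun _ => 2) (fun _ => h) (fun _ => le_rfl) (fun _ => hh) (2 * r + 1)
    (6 * B) C U (by omega) (by omega)
  refine ⟨B0, fun E => ?_⟩
  obtain ⟨x0, h1⟩ := h0 E
  refine ⟨x0 + 1, fun X hX H hH1 hH2 ι _ a ha hE z hz1 hz2 L hL => ?_⟩
  refine le_trans (Nat.cast_le.2 (card_le_card ?_)) (h1 X (by omega) H (fun l => (hH1 l).trans (Nat.pow_le_pow_right (by omega) (by omega)))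
    (fun l => by
      rw [Nat.add_sub_cancel, mul_comm 2 r, pow_mul]
      exact Nat.pow_le_pow_left (hH2 l) _) ι a (fun l i => (ha l i).trans (by
    push_cast
    nlinarith [mul_nonneg (Int.natCast_nonneg B) (Int.natCast_nonneg (H l))])) hE (fun _ => 1) (fun _ => one_ne_zero) z hz1 hz2 L hL)
  intro i hi
  rw [mem_filter] at hi ⊢
  obtain ⟨_, b, hb, hb2⟩ := hi
  refine ⟨mem_univ _, fun l => Polynomial.C (a l i) * Polynomial.X ^ 2 + Polynomial.C (b l) * Polynomial.X, ?_, ?_, ?_, ?_⟩
  · intro l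
    exact quad_degree _ _
  · intro l
    rw [coeff_add, coeff_C_mul, coeff_C_mul, coeff_X_pow, coeff_X, if_pos rfl, if_neg (by norm_num)]
    ring
  · intro l m hm
    rw [mem_range] at hm
    have hm' : (m : ℤ) ≤ 2 * X := by exact_mod_cast hm.le
    have hm0 : (0 : ℤ) ≤ m := Int.natCast_nonneg m
    have hX0 : (0 : ℤ) ≤ X := Int.natCast_nonneg X
    have hH0 : (0 : ℤ) ≤ H l := Int.natCast_nonneg (H l)
    have hB0 : (0 : ℤ) ≤ B := Int.natCast_nonneg B
    simp only [eval_add, eval_mul, eval_C, eval_pow, eval_X]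
    have e1 : |a l i * (m : ℤ) ^ 2| ≤ B * H l * (2 * X) ^ 2 := by
      rw [abs_mul, abs_of_nonneg (pow_nonneg hm0 2)]
      exact mul_le_mul (ha l i) (pow_le_pow_left₀ hm0 hm' 2) (pow_nonneg hm0 2) (by positivity)
    have e2 : |b l * (m : ℤ)| ≤ B * (H l * X) * (2 * X) := by
      rw [abs_mul, abs_of_nonneg hm0]
      exact mul_le_mul (hb l) hm' hm0 (by positivity)
    refine (abs_add_le _ _).trans ((add_le_add e1 e2).trans (le_of_eq ?_))
    push_cast
    ring
  · refine lt_of_lt_of_le hb2 (Nat.cast_le.2 (card_le_card ?_))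
    intro c hc
    rw [mem_filter, Fintype.mem_piFinset] at hc ⊢
    obtain ⟨hc1, M, hM1, hM2⟩ := hc
    refine ⟨fun l => ?_, M, hM1, ?_⟩
    · have := mem_Icc.1 (hc1 l)
      have hN2 : (0 : ℤ) ≤ (((H l * X ^ 2 : ℕ)) : ℤ) := Int.natCast_nonneg _
      have hbig : ((B * (H l * X ^ 2) : ℕ) : ℤ) ≤ ((6 * B : ℕ) : ℤ) * (((H l * X ^ 2 : ℕ)) : ℤ) := by
        rw [Nat.cast_mul]
        apply mul_le_mul_of_nonneg_right _ hN2
        exact_mod_cast (by omega : B ≤ 6 * B)
      rw [mem_Icc]
      exact ⟨by linarith [this.1], by linarith [this.2]⟩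
    · have hrho : ∀ p : ℕ, Pool.Agent.Run7.h536.MT.rhos (∏ l, (Polynomial.C (a l i) * Polynomial.X ^ 2 +
          Polynomial.C (b l) * Polynomial.X + Polynomial.C (c l))) p = rho (fun l => a l i) b c p := by
        intro p
        unfold Pool.Agent.Run7.h536.MT.rhos rho
        congr 1
        apply filter_congr
        intro n _
        rw [eval_prod]
        simp only [eval_add, eval_mul, eval_C, eval_pow, eval_X]
      simp only [hrho, eval_add, eval_mul, eval_C, eval_pow, eval_X]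
      exact hM2

end Pool.Agent.Results.MP_82233c_nt.AllLinearCoefficients
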