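import Mathlib
import Pool.Agent.Run7.h17.Seq
import Pool.Agent.Run7.h17.Idx

/-!
# Systems of polynomials along arbitrary sequences: prime values in the residue classes of the index

For instance `p ^ 2 + p + c`, `p = p_n` prime, in the residue classes of the index `n`, for almost all `c` (`F = X ^ 2 + X`).
Let `F 1, ..., F k` be nonconstant integer polynomials, and let `u 1, u 2, ...` be different positive integers with
`u n ≤ n log ^ κ n`, for instance the sequence of the primes (lemma `primes_arguments`) or of the elements of an arbitrary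
set which is not too thin. For almost all constant terms `c 1, ..., c k` up to the size of the values and with an arbitrary
weight `θ` let `R(n) = θ(n) (∏ Λ(F i (u n) + c i) - ∏ model(F i (u n) + c i))`. Then the sum over all `q ≤ Q` and all
classes `b` modulo `q` of the squares of the sums of `R(n)` over the INDICES `n` in the class is
`Q ∑ R(n) ^ 2 + O(x ^ 2 / log ^ U x)`, for all `Q` and all lengths (an asymptotic formula of the type of Barban, Davenport,
Halberstam, Montgomery and Hooley). Nothing is assumed about the distribution of the sequence.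

Used: the starting files `Pool.Agent.H373R2.T7` (sieve model, energies of polynomial values), `Pool.Agent.TH823.Fam`,
`Pool.Agent.H560R3.GB` (von Mangoldt's function along families of small energy) and the large sieve of
`Pool.Agent.Helper112`. From Mathlib: `ArithmeticFunction.vonMangoldt` is von Mangoldt's function `Λ`; `Finset.Icc 1 x` are
the integers from `1` to `x`, `Finset.range q` those from `0` to `q - 1`; `Int.toNat n = 0` for negative `n`, and `Λ(0) = 0`.
-/

set_option autoImplicit false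

namespace Pool.Agent.Results.MP_82233c_nt.ArgumentsInSequences

open Finset Polynomial

/-- Von Mangoldt's function on the integers; it is `0` at the integers `n ≤ 0`. -/
noncomputable def vM (n : ℤ) : ℝ := ArithmeticFunction.vonMangoldt n.toNat

/-- The sieve model: the positive integers without prime factors up to `z` have the weight `∏_{p ≤ z} (1 - 1 / p)⁻¹`,
the other integers the weight `0`. -/
noncomputable def model (z : ℕ) (n : ℤ) : ℝ :=
  if 1 ≤ n ∧ ∀ p ∈ (Icc 1 z).filter Nat.Prime, ¬ p ∣ n.toNat then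
    (∏ p ∈ (Icc 1 z).filter Nat.Prime, (1 - 1 / (p : ℝ)))⁻¹ else 0

/-- The numbers `u 1, ..., u x` are different positive integers up to `x log ^ κ x`. -/
def Arguments (κ x : ℕ) (u : ℕ → ℕ) : Prop :=
  (∀ n ∈ Icc 1 x, 1 ≤ u n ∧ (u n : ℝ) ≤ Real.log x ^ κ * x) ∧ ∀ m ∈ Icc 1 x, ∀ n ∈ Icc 1 x, u m = u n → m = n

/-- `R(n) = θ(n) (∏_i Λ(F i (u n) + c i) - ∏_i model(F i (u n) + c i))`. -/
noncomputable def R {k : ℕ} (z : ℕ) (θ : ℕ → ℝ) (u : ℕ → ℕ) (F : Fin k → ℤ[X]) (c : Fin k → ℤ) (n : ℕ) : ℝ :=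
  θ n * (∏ i, vM ((F i).eval (u n : ℤ) + c i) - ∏ i, model z ((F i).eval (u n : ℤ) + c i))

/-- For all lengths `y ≤ x` and all `Q`: the sum over the moduli `q ≤ Q` and the classes `b` modulo `q` of the squares of
the sums of `R(n)` over the `n ≤ y` in the class is `Q ∑_{n ≤ y} R(n) ^ 2`, up to at most `x ^ 2 / log ^ U x`. -/
def MeanSquare (U x z : ℕ) {k : ℕ} (θ : ℕ → ℝ) (u : ℕ → ℕ) (F : Fin k → ℤ[X]) (c : Fin k → ℤ) : Prop :=
  ∀ y : ℕ, y ≤ x → ∀ Q : ℕ,
    |∑ q ∈ Icc 1 Q, ∑ b ∈ range q, (∑ n ∈ (Icc 1 y).filter (fun n => n % q = b), R z θ u F c n) ^ 2 -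
      Q * ∑ n ∈ Icc 1 y, R z θ u F c n ^ 2| ≤ (x : ℝ) ^ 2 / Real.log x ^ U

lemma lam_eq (n : ℤ) : Pool.Agent.H373R2.T7.lamI n = vM n := by
  unfold Pool.Agent.H373R2.T7.lamI vM
  split_ifs with h
  · rfl
  · have : n.toNat = 0 := Int.toNat_of_nonpos (by omega)
    rw [this]
    simp

lemma lamz_eq (z : ℕ) (n : ℤ) : Pool.Agent.H373R2.T7.lamzI z n = model z n := by
  unfold Pool.Agent.H373R2.T7.lamzI Pool.Agent.H373R2.T7.lamz model
  by_cases h : 1 ≤ n
  · rw [if_pos h]
    by_cases h2 : ∀ p ∈ Pool.Agent.H373R2.T7.pz z, ¬ p ∣ n.toNat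
    · rw [if_pos h2, if_pos ⟨h, h2⟩]
      rfl
    · rw [if_neg h2, if_neg (fun h3 => h2 h3.2)]
  · rw [if_neg h, if_neg (fun h3 => h h3.1)]

/-- the primes `p_1 = 2`, `p_2 = 3`, ..., are such a sequence of arguments -/
lemma primes_arguments : ∃ x₀ : ℕ, ∀ x : ℕ, x₀ ≤ x → Arguments 2 x (fun n => Nat.nth Nat.Prime (n - 1)) := by
  obtain ⟨n1, h1⟩ := Pool.Agent.Run7.h17.Pos.pn_bound
  refine ⟨n1, fun x hx => ⟨fun n hn => ⟨?_, ?_⟩, fun m hm n hn h => ?_⟩⟩
  · exact (Nat.prime_nth_prime (n - 1)).one_lt.le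
  · exact h1 x hx n hn
  · exact Pool.Agent.Run7.h17.Pos.pn_inj x (mem_coe.mpr hm) (mem_coe.mpr hn) h

open Classical in
/-- Let nonconstant integer polynomials `F 1, ..., F k` and `κ, U` be fixed. There is `B₀` such that for all `E` and all
large `x` the following holds for all integers `M i` between `x ^ deg (F i) / log ^ κ x` and `x ^ deg (F i) log ^ κ x`, all
integers `a i` with `|a i| ≤ M i log ^ κ x`, all sequences `u` of arguments (`Arguments`), all `z` between `log ^ B₀ x` and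
`log ^ E x`, and all families of at most `log ^ κ x` weights `θ l`, bounded by `log ^ κ x` on `[1, x]`. For all vectors
`(a i + c i)_i`, `1 ≤ c i ≤ M i`, of constant terms but at most the proportion `1 / log ^ U x` of them, for all `l`, the
asymptotic formula `MeanSquare` for the mean square over the classes of the index holds. -/
theorem result (k : ℕ) (F : Fin k → ℤ[X]) (hF : ∀ i, 1 ≤ (F i).natDegree) (κ U : ℕ) :
    ∃ B₀ : ℕ, ∀ E : ℕ, ∃ x₀ : ℕ, ∀ x : ℕ, x₀ ≤ x → ∀ M : Fin k → ℕ,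
    (∀ i, (x : ℝ) ^ (F i).natDegree ≤ Real.log x ^ κ * M i ∧ (M i : ℝ) ≤ Real.log x ^ κ * x ^ (F i).natDegree) →
    ∀ a : Fin k → ℤ, (∀ i, |(a i : ℝ)| ≤ Real.log x ^ κ * M i) → ∀ u : ℕ → ℕ, Arguments κ x u →
    ∀ z : ℕ, Real.log x ^ B₀ ≤ z → (z : ℝ) ≤ Real.log x ^ E →
    ∀ L : ℕ, (L : ℝ) ≤ Real.log x ^ κ → ∀ θ : Fin L → ℕ → ℝ, (∀ l, ∀ n ∈ Icc 1 x, |θ l n| ≤ Real.log x ^ κ) →
    (((Fintype.piFinset (fun i => Icc 1 (M i))).filter (fun c : Fin k → ℕ =>
      ¬ ∀ l, MeanSquare U x z (θ l) u F (fun i => a i + c i))).card : ℝ) ≤ (∏ i, (M i : ℝ)) / Real.log x ^ U := by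
  obtain ⟨B0, hB0⟩ := Pool.Agent.Run7.h17.PB.seq_var k F hF κ U
  refine ⟨B0, fun E => ?_⟩
  obtain ⟨x0, h1⟩ := hB0 E
  refine ⟨x0, fun x hx M hM a ha u hu z hz1 hz2 L hL θ hθ => ?_⟩
  refine le_trans (Nat.cast_le.mpr (card_le_card ?_)) (h1 x hx M hM a (fun i => by
    have := ha i
    push_cast
    exact this) u hu.1 (fun m hm n hn h => hu.2 m (mem_coe.mp hm) n (mem_coe.mp hn) h) z hz1 hz2 L hL θ hθ)
  intro c hc
  rw [mem_filter] at hc ⊢
  refine ⟨hc.1, fun hgood => hc.2 ?_⟩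
  intro l y hy Q
  have h5 := hgood l y hy Q
  have e1 : ∀ t : ℕ, θ l t * Pool.Agent.Run7.h17.PB.pd z (fun i t => a i + (F i).eval (u t : ℤ)) c t =
      R z (θ l) u F (fun i => a i + c i) t := by
    intro t
    unfold R Pool.Agent.Run7.h17.PB.pd
    have e : ∀ i, a i + (F i).eval (u t : ℤ) + (c i : ℤ) = (F i).eval (u t : ℤ) + (a i + c i) := fun i => by ring
    simp_rw [e, lam_eq, lamz_eq]
  have e3 : ∀ q b, (∑ t ∈ Icc 1 y, if t % q = b then
      θ l t * Pool.Agent.Run7.h17.PB.pd z (fun i t => a i + (F i).eval (u t : ℤ)) c t else 0) =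
      ∑ t ∈ (Icc 1 y).filter (fun t => t % q = b), R z (θ l) u F (fun i => a i + c i) t := by
    intro q b
    rw [sum_filter]
    refine sum_congr rfl fun t _ => ?_
    rw [e1 t]
  rw [sum_congr rfl fun q _ => sum_congr rfl fun b _ => by rw [e3 q b],
    sum_congr rfl fun (t : ℕ) (_ : t ∈ Icc 1 y) => by rw [e1 t]] at h5
  exact h5

end Pool.Agent.Results.MP_82233c_nt.ArgumentsInSequences
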