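import Pool.Agent.Run7.h462.PA.All
import Pool.Agent.Run7.h462.QA.Irr

/-!
# Systems `F + b + a_1, ..., F + b + a_k` at prime arguments from ARBITRARY dense sets of primes: the Bateman-Horn lower bound for a
positive proportion of the constant terms

For instance `F = X ^ 2 + X`: the numbers `p ^ 2 + p + b + a`. Let `F` be ANY integer polynomial of degree `d ≥ 2` with positive
leading coefficient, and let `T` be an ARBITRARY set of `≥ δ N / log N` primes `p ≤ N` (`G = 1`), or, more generally, an arbitrary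
set of primes `p ≤ N` for which `G(p)` is free of primes `≤ N ^ κ`, of relative density `≥ δ` in the sieve of dimension `> 1` for `x G(x)`
(for instance `G = X ^ 2 + X + 1` and primes `p` with almost prime `p ^ 2 + p + 1`). Then for a positive proportion of the `k`-tuples of
distinct integers `a_i` in windows of length `H`, where `C log N ≤ H ≤ A`, `N ^ (d - 1) / log ^ B N ≤ A ≤ N ^ (d - 1) log ^ B N` and
`|b| ≤ N ^ (d - 1) log ^ B N`, the polynomials `F + b + a_i` are irreducible, their product with `X G` has no fixed prime divisor and the number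
of the `p ∈ T` for which ALL `F(p) + b + a_i` are primes is at least `1 - η` times the number predicted by the heuristics of Bateman and Horn
RELATIVE to `T`. Nothing is assumed about the distribution of the set `T`.

Method (project PA). First moment: almost all windows `(F(n) + b, F(n) + b + A]`, `n ≤ N`, contain the right number of primes, with an
exceptional set smaller than `N / log ^ U N` for every `U`, so that the windows of the `n ∈ T` are regular as well. For the tuples: the power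
mean inequality for the number of the primes `F(n) + b + a`, `a` in a short window. Upper bounds by the sieve for `x G(x) ∏ (F(x) + b + a_i)`,
`x ≤ N`, which does not see `T` and therefore loses only a constant; the mean value of its density over the tuples is one (Gallagher), its second
moment is bounded, and it does not depend on the cut for almost all tuples. So no small set of tuples can carry the first moment.
-/

set_option autoImplicit false

namespace Pool.Agent.Results.MP_82233c_nt.DensePrimeArguments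

open Finset Filter Topology
open Polynomial (X)
open scoped Polynomial

variable {k : ℕ}

/-- the number of residues `x` modulo `p` such that `p` divides `x G(x)` -/
def rho (G : ℤ[X]) (p : ℕ) : ℕ := #((range p).filter (fun x : ℕ => (p : ℤ) ∣ x * G.eval (x : ℤ)))

/-- the number of residues `x` modulo `p` such that `p` divides `x G(x)` times the product of the `F(x) + b + a_i` -/
def omega (G F : ℤ[X]) (b : ℤ) (a : Fin k → ℕ) (p : ℕ) : ℕ :=
  #((range p).filter (fun x : ℕ => (p : ℤ) ∣ x * G.eval (x : ℤ) * ∏ i, (F.eval (x : ℤ) + b + a i)))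

/-- the product of `1 - rho(p) / p` over the primes `p ≤ z` -/
noncomputable def V (G : ℤ[X]) (z : ℕ) : ℝ := ∏ p ∈ (Icc 1 z).filter Nat.Prime, (1 - (rho G p : ℝ) / p)

/-- the product of `(1 - omega(p) / p) / ((1 - rho(p) / p) (1 - 1 / p) ^ k)` over the primes `p ≤ z` -/
noncomputable def S (G F : ℤ[X]) (b : ℤ) (a : Fin k → ℕ) (z : ℕ) : ℝ :=
  ∏ p ∈ (Icc 1 z).filter Nat.Prime, (1 - (omega G F b a p : ℝ) / p) / ((1 - (rho G p : ℝ) / p) * (1 - 1 / (p : ℝ)) ^ k)

/-- the number of the `p ∈ T` such that all `F(p) + b + a_i` are primes -/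
def P (F : ℤ[X]) (b : ℤ) (a : Fin k → ℕ) (T : Finset ℕ) : ℕ :=
  #(T.filter (fun p : ℕ => ∀ i, Nat.Prime (F.eval (p : ℤ) + b + a i).toNat))

/-- the conditions of Schinzel's hypothesis: the `F + b + a_i` are irreducible and their product with `x G(x)` has no fixed prime
divisor -/
def Schinzel (G F : ℤ[X]) (b : ℤ) (a : Fin k → ℕ) : Prop :=
  (∀ i, Irreducible (F + Polynomial.C (b + a i))) ∧
  ∀ p : ℕ, p.Prime → ∃ x : ℕ, ¬ (p : ℤ) ∣ x * G.eval (x : ℤ) * ∏ i, (F.eval (x : ℤ) + b + a i)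

/-- the conclusion for one tuple -/
def Good (G F : ℤ[X]) (b : ℤ) (η c : ℝ) (E N : ℕ) (T : Finset ℕ) (a : Fin k → ℕ) : Prop :=
  Schinzel G F b a ∧
  ∀ z : ℕ, Real.log N ^ E ≤ z → z ^ 6 ≤ N →
    c ≤ S G F b a z ∧ (1 - η) * (S G F b a z * (#T / (F.natDegree * Real.log N) ^ k)) ≤ P F b a T

open Run7.h462.PA (Fb rG VG gG PS NF GoodP)
open Pool.Agent.H373R2.T7 (pz Vz)

lemma rho_eq (G : ℤ[X]) (p : ℕ) : rho G p = Pool.Agent.TH204.WR.rho (X * G) 0 p := by
  unfold rho Pool.Agent.TH204.WR.rho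
  congr 1
  apply filter_congr
  intro x _
  rw [add_zero, Polynomial.eval_mul, Polynomial.eval_X]

lemma omega_eq (G F : ℤ[X]) (b : ℤ) (a : Fin k → ℕ) (p : ℕ) : omega G F b a p = rG (X * G) (Fb F b) a p := by
  unfold omega rG Pool.Agent.TH204.WR.rho
  congr 1
  apply filter_congr
  intro x _
  rw [add_zero, Polynomial.eval_mul, Run7.h462.KT.eval_Q, Polynomial.eval_mul, Polynomial.eval_X]
  simp only [Run7.h824.PA.eval_Fb]

lemma V_eq (G : ℤ[X]) (z : ℕ) : V G z = VG (X * G) z := by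
  unfold V VG pz
  apply prod_congr rfl
  intro p _
  rw [rho_eq]

lemma S_eq (G F : ℤ[X]) (b : ℤ) (a : Fin k → ℕ) (z : ℕ) : S G F b a z = gG (X * G) (Fb F b) a z := by
  unfold S gG VG Vz pz
  rw [← prod_pow, ← prod_mul_distrib, ← prod_div_distrib]
  apply prod_congr rfl
  intro p _
  rw [omega_eq, rho_eq]

lemma P_eq (F : ℤ[X]) (b : ℤ) (a : Fin k → ℕ) (T : Finset ℕ) : P F b a T = PS T (Fb F b) a := by
  unfold P PS
  simp only [Run7.h824.PA.eval_Fb]

lemma NF_of {G : ℤ[X]} (h : ∀ p : ℕ, p.Prime → ∃ x : ℕ, ¬ (p : ℤ) ∣ x * G.eval (x : ℤ)) : NF (X * G) := by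
  intro p hp
  obtain ⟨x, hx⟩ := h p hp
  rw [← rho_eq]
  unfold rho
  refine lt_of_lt_of_le (card_lt_card (Finset.filter_ssubset.2 ⟨x % p, mem_range.2 (Nat.mod_lt _ hp.pos), ?_⟩)) (card_range p).le
  intro h1
  apply hx
  have h2 : ((x % p : ℕ) : ℤ) ≡ x [ZMOD p] := by
    push_cast
    exact Int.mod_modEq _ _
  have h3 : ((x % p : ℕ) : ℤ) * G.eval ((x % p : ℕ) : ℤ) ≡ x * G.eval (x : ℤ) [ZMOD p] :=
    h2.mul ((Int.ModEq.symm (Int.modEq_iff_dvd.2 (dvd_trans (Int.modEq_iff_dvd.1 h2.symm) (Polynomial.sub_dvd_eval_sub _ _ G)))))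
  exact (Int.modEq_zero_iff_dvd.1 (h3.symm.trans (Int.modEq_zero_iff_dvd.2 h1)))

/-- no fixed prime divisor -/
lemma no_fixed {G F : ℤ[X]} (hNF : NF (X * G)) (hd : 1 ≤ F.natDegree) (hl : 0 < F.leadingCoeff) (b : ℤ) (a : Fin k → ℕ) (z : ℕ)
    (hz : (X * G).natDegree + k * F.natDegree + F.leadingCoeff.natAbs < z) (hS : 0 < S G F b a z) (p : ℕ) (hp : p.Prime) :
    ∃ x : ℕ, ¬ (p : ℤ) ∣ x * G.eval (x : ℤ) * ∏ i, (F.eval (x : ℤ) + b + a i) := by
  by_contra hcon
  push Not at hcon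
  have h1 : omega G F b a p = p := by
    unfold omega
    rw [filter_true_of_mem (fun x _ => hcon x), card_range]
  have hp0 : (0 : ℝ) < p := by exact_mod_cast hp.pos
  rcases le_or_gt p z with h | h
  · have h2 : S G F b a z = 0 := by
      unfold S
      apply prod_eq_zero (i := p) (mem_filter.2 ⟨mem_Icc.2 ⟨hp.one_lt.le, h⟩, hp⟩)
      rw [h1, div_self hp0.ne', sub_self, zero_div]
    rw [h2] at hS
    exact lt_irrefl _ hS
  · rw [omega_eq] at h1
    have hdb : (Fb F b).natDegree = F.natDegree := Run7.h824.PA.natDegree_Fb F b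
    have hlb : (Fb F b).leadingCoeff = F.leadingCoeff := by
      unfold Polynomial.leadingCoeff
      rw [hdb]
      unfold Fb
      rw [Polynomial.coeff_add, Polynomial.coeff_C_of_ne_zero (by omega), add_zero]
    have h2 := Run7.h824.PA.rG_le_add (X * G) (Fb F b) a hp
    have h3 : Pool.Agent.TH204.WR.rho (X * G) 0 p ≤ (X * G).natDegree :=
      Pool.Agent.TH204.WR.rho_le_deg (X * G) 0 p hp (hNF p hp)
    have h4 := Run7.h462.KT.rk_le_deg (Fb F b) a hp (by rw [hdb]; exact hd) (by rw [hlb]; omega) (by rw [hlb]; exact hl.ne')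
    rw [hdb] at h4
    omega

lemma rhoX (p : ℕ) (hp : p.Prime) : Pool.Agent.TH204.WR.rho (X * (1 : ℤ[X])) 0 p = 1 := by
  rw [← rho_eq]
  unfold rho
  have h : (range p).filter (fun x : ℕ => (p : ℤ) ∣ x * (1 : ℤ[X]).eval (x : ℤ)) = {0} := by
    ext x
    rw [mem_filter, mem_range, mem_singleton, Polynomial.eval_one, mul_one]
    constructor
    · rintro ⟨h1, h2⟩
      exact Nat.eq_zero_of_dvd_of_lt (by exact_mod_cast h2) h1
    · rintro rfl
      exact ⟨hp.pos, by simp⟩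
  rw [h, card_singleton]

/-- the size condition, in one form -/
lemma size_cond {G : ℤ[X]} {κ δ s : ℝ} (hκ : 0 < κ) (hκ2 : κ ≤ 1 / 2) (hδ : 0 < δ) (hs0 : 0 ≤ s) {N : ℕ} (hN : 3 ≤ N) {z : ℕ}
    (hz : 2 ≤ z) (hzN : (N : ℝ) ^ (κ / 2) ≤ z) (h : δ * (N * VG (X * G) z) ≤ s ∨ G = 1 ∧ δ * (N / Real.log N) ≤ s) :
    δ * κ / 4 * (N * VG (X * G) z) ≤ s := by
  have hN0 : (0 : ℝ) < N := by exact_mod_cast (by omega : 0 < N)
  have hV0 : 0 ≤ VG (X * G) z := Run7.h824.PA.VG_nonneg _ _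
  rcases h with h | ⟨rfl, h⟩
  · refine le_trans ?_ h
    have : 0 ≤ N * VG (X * G) z := by positivity
    nlinarith [mul_nonneg hδ.le this, mul_nonneg (mul_nonneg hδ.le this) hκ.le]
  · have hL0 : 0 < Real.log N := Real.log_pos (by exact_mod_cast (by omega : 1 < N))
    have h1 : VG (X * (1 : ℤ[X])) z = Vz z := by
      unfold VG Vz
      apply prod_congr rfl
      intro p hp
      rw [rhoX p (mem_filter.1 hp).2]
      push_cast
      ring
    have h2 : Vz z ≤ 1 / Real.log z := Pool.Agent.N792.V1_le z hz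
    have h3 : κ / 2 * Real.log N ≤ Real.log z := by
      have h4 := Real.log_le_log (by positivity) hzN
      rwa [Real.log_rpow hN0] at h4
    have h5 : 1 / Real.log z ≤ 1 / (κ / 2 * Real.log N) := one_div_le_one_div_of_le (by positivity) h3
    rw [h1]
    calc δ * κ / 4 * (N * Vz z) ≤ δ * κ / 4 * (N * (1 / (κ / 2 * Real.log N))) := by
          have : Vz z ≤ 1 / (κ / 2 * Real.log N) := h2.trans h5
          gcongr
      _ = (δ * (N / Real.log N)) / 2 := by field_simp; norm_num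
      _ ≤ s := by
          have : 0 ≤ δ * (N / Real.log N) := by positivity
          linarith

open Classical in
theorem result (G F : ℤ[X]) (hG : ∀ p : ℕ, p.Prime → ∃ x : ℕ, ¬ (p : ℤ) ∣ x * G.eval (x : ℤ)) (hd : 2 ≤ F.natDegree)
    (hl : 0 < F.leadingCoeff) (k : ℕ) (hk : 1 ≤ k) (B : ℕ) (κ δ η : ℝ) (hκ : 0 < κ) (hκ2 : κ ≤ 1 / 2) (hδ : 0 < δ) (hη : 0 < η) :
    ∃ (E : ℕ) (c C₀ : ℝ), 0 < c ∧ 0 < C₀ ∧ ∃ N₀ : ℕ, ∀ N : ℕ, N₀ ≤ N → ∀ (A H : ℕ) (b : ℤ),
      (N : ℝ) ^ (F.natDegree - 1) ≤ A * Real.log N ^ B → (A : ℝ) ≤ (N : ℝ) ^ (F.natDegree - 1) * Real.log N ^ B →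
      (|b| : ℝ) ≤ (N : ℝ) ^ (F.natDegree - 1) * Real.log N ^ B → C₀ * Real.log N ≤ H → H ≤ A →
      ∀ T : Finset ℕ, (∀ p ∈ T, p.Prime ∧ p ≤ N ∧ ∀ q : ℕ, q.Prime → (q : ℝ) ≤ (N : ℝ) ^ κ → ¬ (q : ℤ) ∣ G.eval (p : ℤ)) →
      (δ * (N * V G ⌊(N : ℝ) ^ κ⌋₊) ≤ #T ∨ G = 1 ∧ δ * (N / Real.log N) ≤ #T) →
      c * (A * (H : ℝ) ^ (k - 1)) ≤ #((Fintype.piFinset (fun _ : Fin k => Icc 1 A)).filter
        (fun a => Function.Injective a ∧ (∀ i j, a i ≤ a j + H) ∧ Good G F b η c E N T a)) := by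
  have hNF := NF_of hG
  have hG0 : X * G ≠ 0 := by
    intro h0
    have h1 := hNF 2 Nat.prime_two
    rw [h0] at h1
    unfold Pool.Agent.TH204.WR.rho at h1
    simp at h1
  obtain ⟨η₁, hη₁⟩ : ∃ η₁ : ℝ, η₁ = min η (1 / 2) := ⟨_, rfl⟩
  have hη1 : 0 < η₁ := by rw [hη₁]; exact lt_min hη (by norm_num)
  have hη2 : η₁ ≤ η := by rw [hη₁]; exact min_le_left _ _
  have hη3 : η₁ ≤ 1 / 2 := by rw [hη₁]; exact min_le_right _ _
  obtain ⟨E, c, C₀, hc, hC₀, N₀, h⟩ := Run7.h462.PA.pa (X * G) F k hk hd hl hNF hG0 B κ (δ * κ / 8) (η₁ / 2) hκ (by linarith)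
    (by positivity) (by positivity) (by linarith)
  obtain ⟨cV, hcV, -, e, hV⟩ := Run7.h957.PA.vgr (X * G) hNF
  obtain ⟨K0, hK0⟩ : ∃ K0 : ℕ, K0 = (X * G).natDegree + k * F.natDegree + F.leadingCoeff.natAbs := ⟨_, rfl⟩
  obtain ⟨N₁, h1⟩ := eventually_atTop.1 (Run7.h757.BP.Fin.rpow_ge_log (1 / 6) (by norm_num) (E + 1) 2 (by norm_num))
  obtain ⟨N₂, h2⟩ := eventually_atTop.1 (Run7.h757.BP.Fin.rpow_ge_log (1 / 2) (by norm_num) (e + 1) (4 / η₁) (by positivity))
  obtain ⟨N₃, h3⟩ := eventually_atTop.1 (Run7.h757.BP.Fin.rpow_ge_log 1 (by norm_num) (e + 1 + k)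
    (8 * (F.natDegree : ℝ) ^ k * (2 * F.natDegree + 1) / c) (by positivity))
  obtain ⟨N₄, h4⟩ := eventually_atTop.1 ((Real.tendsto_log_atTop.comp tendsto_natCast_atTop_atTop).eventually_ge_atTop
    (max (K0 + 1 : ℝ) (1 / (δ * κ / 4 * cV * Real.log 2 ^ e * VG (X * G) 2))))
  obtain ⟨N₅, h5⟩ := eventually_atTop.1 (Run7.h757.BP.Fin.rpow_ge_log (κ / 2) (by positivity) 0 4 (by norm_num))
  refine ⟨E, c, C₀, hc, hC₀, N₀ + N₁ + N₂ + N₃ + N₄ + N₅ + 3, fun N hN A H b hA1 hA2 hb hH1 hH2 T hT hTs => ?_⟩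
  have h1 := h1 N (by omega)
  have h2 := h2 N (by omega)
  have h3 := h3 N (by omega)
  have h4 := h4 N (by omega)
  have h5 := h5 N (by omega)
  simp only [Function.comp] at h4
  rw [pow_zero, mul_one] at h5
  have hdR : (2 : ℝ) ≤ F.natDegree := by exact_mod_cast hd
  have hN3 : (3 : ℝ) ≤ N := by exact_mod_cast (by omega : 3 ≤ N)
  have hN0 : (0 : ℝ) < N := by linarith
  have hlog : 1 ≤ Real.log N := by
    rw [Real.le_log_iff_exp_le (by linarith)]
    linarith [Real.exp_one_lt_d9]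
  have hL0 : 0 < Real.log N := by linarith
  -- the level of the sieve
  obtain ⟨zκ, hzκ⟩ : ∃ z : ℕ, z = ⌊(N : ℝ) ^ κ⌋₊ := ⟨_, rfl⟩
  have hsq : (N : ℝ) ^ κ = (N : ℝ) ^ (κ / 2) * (N : ℝ) ^ (κ / 2) := by
    rw [← Real.rpow_add hN0]
    congr 1
    ring
  have hz1 : (N : ℝ) ^ (κ / 2) ≤ zκ := by
    have e1 : (N : ℝ) ^ κ < zκ + 1 := by rw [hzκ]; exact Nat.lt_floor_add_one _
    nlinarith
  have hz2 : 2 ≤ zκ := by
    have : (2 : ℝ) ≤ zκ := by linarith
    exact_mod_cast this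
  have hz3 : (zκ : ℝ) ≤ (N : ℝ) ^ κ := by rw [hzκ]; exact Nat.floor_le (by positivity)
  rw [← hzκ, V_eq] at hTs
  have hT2 : δ * κ / 4 * (N * VG (X * G) zκ) ≤ #T := size_cond hκ hκ2 hδ (by positivity) (by omega) hz2 hz1 hTs
  have hT3 : (N : ℝ) ≤ #T * Real.log N ^ (e + 1) :=
    (Run7.h462.PA.dens (κ1 := κ / 2) (z0 := zκ) hNF hcV hV hκ (by linarith) (by positivity) (show 0 < δ * κ / 4 by positivity) rfl
      (by omega) hz2 hz1 hz3 (by rw [← hzκ]; exact hT2) ((le_max_right _ _).trans h4)).2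
  -- the subset of the primes that are not small
  obtain ⟨S', hS'⟩ : ∃ S' : Finset ℕ, S' = T.filter (fun p : ℕ => (N : ℝ) ^ κ < p) := ⟨_, rfl⟩
  have hNκ : (N : ℝ) ^ κ ≤ η₁ / 4 * #T := by
    have e1 : (N : ℝ) ^ κ ≤ (N : ℝ) ^ (1 / 2 : ℝ) := Real.rpow_le_rpow_of_exponent_le (by linarith) hκ2
    have e2 : (N : ℝ) ^ (1 / 2 : ℝ) * (N : ℝ) ^ (1 / 2 : ℝ) = N := by
      rw [← Real.rpow_add hN0]
      norm_num
    have e3 : 0 < (N : ℝ) ^ (1 / 2 : ℝ) := by positivity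
    have e4 : 0 < Real.log N ^ (e + 1) := by positivity
    have e5 : (N : ℝ) ^ (1 / 2 : ℝ) * (4 / η₁ * Real.log N ^ (e + 1)) ≤ #T * Real.log N ^ (e + 1) := by
      calc (N : ℝ) ^ (1 / 2 : ℝ) * (4 / η₁ * Real.log N ^ (e + 1)) ≤ (N : ℝ) ^ (1 / 2 : ℝ) * (N : ℝ) ^ (1 / 2 : ℝ) := by gcongr
        _ = N := e2
        _ ≤ _ := hT3
    have e6 : (N : ℝ) ^ (1 / 2 : ℝ) * (4 / η₁) ≤ #T := by
      have e7 : ((N : ℝ) ^ (1 / 2 : ℝ) * (4 / η₁)) * Real.log N ^ (e + 1) ≤ #T * Real.log N ^ (e + 1) := by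
        calc _ = (N : ℝ) ^ (1 / 2 : ℝ) * (4 / η₁ * Real.log N ^ (e + 1)) := by ring
          _ ≤ _ := e5
      exact le_of_mul_le_mul_right e7 e4
    refine e1.trans ?_
    calc (N : ℝ) ^ (1 / 2 : ℝ) = η₁ / 4 * ((N : ℝ) ^ (1 / 2 : ℝ) * (4 / η₁)) := by field_simp
      _ ≤ η₁ / 4 * #T := by gcongr
  have hcardS : (1 - η₁ / 4) * #T ≤ (#S' : ℝ) := by
    have e1 : (#T : ℝ) = #S' + #(T.filter (fun p : ℕ => ¬ (N : ℝ) ^ κ < p)) := by
      rw [hS']
      exact_mod_cast (card_filter_add_card_filter_not (s := T) (fun p : ℕ => (N : ℝ) ^ κ < p)).symm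
    have e2 : (#(T.filter (fun p : ℕ => ¬ (N : ℝ) ^ κ < p)) : ℝ) ≤ (N : ℝ) ^ κ := by
      have e3 : T.filter (fun p : ℕ => ¬ (N : ℝ) ^ κ < p) ⊆ Icc 1 zκ := by
        intro p hp
        rw [mem_filter, not_lt] at hp
        rw [mem_Icc]
        exact ⟨(hT p hp.1).1.one_lt.le, by rw [hzκ]; exact Nat.le_floor hp.2⟩
      have e4 := card_le_card e3
      rw [Nat.card_Icc, Nat.add_sub_cancel] at e4
      have e5 : (#(T.filter (fun p : ℕ => ¬ (N : ℝ) ^ κ < p)) : ℝ) ≤ zκ := by exact_mod_cast e4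
      exact e5.trans hz3
    linarith
  have hT0 : (0 : ℝ) ≤ #T := by positivity
  have hS1 : S' ⊆ Icc 1 N := by
    intro p hp
    rw [hS', mem_filter] at hp
    exact mem_Icc.2 ⟨(hT p hp.1).1.one_lt.le, (hT p hp.1).2.1⟩
  have hS2 : ∀ n ∈ S', ∀ q : ℕ, q.Prime → (q : ℝ) ≤ (N : ℝ) ^ κ → ¬ (q : ℤ) ∣ (X * G).eval (n : ℤ) := by
    intro n hn q hq hqN hdvd
    rw [hS', mem_filter] at hn
    rw [Polynomial.eval_mul, Polynomial.eval_X] at hdvd
    rcases (Nat.prime_iff_prime_int.1 hq).dvd_mul.1 hdvd with h6 | h6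
    · have h7 : q ∣ n := by exact_mod_cast h6
      have h8 := (Nat.prime_dvd_prime_iff_eq hq (hT n hn.1).1).1 h7
      rw [h8] at hqN
      linarith [hn.2]
    · exact (hT n hn.1).2.2 q hq hqN h6
  have hS3 : δ * κ / 8 * (N * VG (X * G) ⌊(N : ℝ) ^ κ⌋₊) ≤ #S' := by
    rw [← hzκ]
    nlinarith
  refine (h N (by omega) A H b hA1 hA2 hb hH1 hH2 S' hS1 hS2 hS3).trans ?_
  norm_cast
  apply card_le_card
  intro a ha
  rw [mem_filter] at ha ⊢
  obtain ⟨ha1, ha2, ha3, ha4⟩ := ha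
  have hPS : (PS S' (Fb F b) a : ℝ) ≤ P F b a T := by
    rw [P_eq, hS']
    unfold PS
    exact_mod_cast card_le_card (fun n hn => by
      rw [mem_filter, mem_filter] at hn
      rw [mem_filter]
      exact ⟨hn.1.1, hn.2⟩)
  have hgood : ∀ z : ℕ, Real.log N ^ E ≤ z → z ^ 6 ≤ N →
      c ≤ S G F b a z ∧ (1 - η₁) * (S G F b a z * (#T / (F.natDegree * Real.log N) ^ k)) ≤ PS S' (Fb F b) a := by
    intro z hz1 hz2
    rw [S_eq]
    obtain ⟨h6, h7⟩ := ha4 z hz1 hz2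
    refine ⟨h6, le_trans ?_ h7⟩
    have h8 : 0 ≤ gG (X * G) (Fb F b) a z := hc.le.trans h6
    have h9 : (1 - η₁) * #T ≤ (1 - η₁ / 2) * #S' := by
      have e1 : (1 - η₁ / 2) * ((1 - η₁ / 4) * #T) ≤ (1 - η₁ / 2) * #S' :=
        mul_le_mul_of_nonneg_left hcardS (by linarith)
      nlinarith [mul_nonneg hη1.le hT0, mul_nonneg (mul_nonneg hη1.le hη1.le) hT0]
    have h10 : (0 : ℝ) < (F.natDegree * Real.log N) ^ k := by positivity
    calc (1 - η₁) * (gG (X * G) (Fb F b) a z * (#T / (F.natDegree * Real.log N) ^ k)) =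
          gG (X * G) (Fb F b) a z * (((1 - η₁) * #T) / (F.natDegree * Real.log N) ^ k) := by ring
      _ ≤ gG (X * G) (Fb F b) a z * (((1 - η₁ / 2) * #S') / (F.natDegree * Real.log N) ^ k) := by gcongr
      _ = (1 - η₁ / 2) * (gG (X * G) (Fb F b) a z * (#S' / (F.natDegree * Real.log N) ^ k)) := by ring
  refine ⟨ha1, ha2, ha3, ?_, fun z hz1 hz2 => ?_⟩
  · -- irreducibility, no fixed divisor
    obtain ⟨z, hz⟩ : ∃ z : ℕ, z = ⌈Real.log N ^ (E + 1)⌉₊ := ⟨_, rfl⟩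
    have hz1 : Real.log N ^ (E + 1) ≤ z := by rw [hz]; exact Nat.le_ceil _
    have hB1 : 1 ≤ Real.log N ^ (E + 1) := one_le_pow₀ hlog
    have hz2 : (z : ℝ) ≤ (N : ℝ) ^ (1 / 6 : ℝ) := by
      have h3 : (z : ℝ) < Real.log N ^ (E + 1) + 1 := by rw [hz]; exact Nat.ceil_lt_add_one (by positivity)
      linarith
    have hz3 : z ^ 6 ≤ N := by
      have h3 : (z : ℝ) ^ 6 ≤ N := by
        calc (z : ℝ) ^ 6 ≤ ((N : ℝ) ^ (1 / 6 : ℝ)) ^ 6 := by gcongr
          _ = (N : ℝ) := by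
              rw [← Real.rpow_natCast, ← Real.rpow_mul (by linarith)]
              norm_num
      exact_mod_cast h3
    have hzE : Real.log N ^ E ≤ z := by
      refine le_trans ?_ hz1
      exact pow_le_pow_right₀ hlog (by omega)
    obtain ⟨h6, h7⟩ := hgood z hzE hz3
    have hzK : K0 < z := by
      have e1 : (K0 : ℝ) + 1 ≤ z := by
        refine le_trans ((le_max_left _ _).trans h4) (le_trans ?_ hz1)
        calc Real.log N = Real.log N ^ 1 := (pow_one _).symm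
          _ ≤ Real.log N ^ (E + 1) := pow_le_pow_right₀ hlog (by omega)
      have e2 : ((K0 + 1 : ℕ) : ℝ) ≤ z := by push_cast; exact e1
      have e3 : K0 + 1 ≤ z := by exact_mod_cast e2
      omega
    have h8 : ((2 * F.natDegree : ℕ) : ℝ) < PS S' (Fb F b) a := by
      refine lt_of_lt_of_le ?_ h7
      have e1 : 1 / 2 ≤ 1 - η₁ := by linarith
      have e0 : 0 ≤ S G F b a z := hc.le.trans h6
      have e2 : N / Real.log N ^ (e + 1) ≤ (#T : ℝ) := by
        rw [div_le_iff₀ (by positivity)]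
        exact hT3
      have e3 : 1 / 2 * (c * ((N / Real.log N ^ (e + 1)) / (F.natDegree * Real.log N) ^ k)) ≤
          (1 - η₁) * (S G F b a z * (#T / (F.natDegree * Real.log N) ^ k)) := by gcongr
      refine lt_of_lt_of_le ?_ e3
      rw [Real.rpow_one, div_mul_eq_mul_div, div_le_iff₀ hc] at h3
      have e4 : 1 / 2 * (c * ((N / Real.log N ^ (e + 1)) / (F.natDegree * Real.log N) ^ k)) =
          (N * c) / (2 * (F.natDegree : ℝ) ^ k * Real.log N ^ (e + 1 + k)) := by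
        rw [mul_pow, pow_add (Real.log N) (e + 1) k]
        field_simp
      have e5 : (0 : ℝ) < (F.natDegree : ℝ) ^ k * Real.log N ^ (e + 1 + k) := by positivity
      rw [e4, lt_div_iff₀ (by positivity)]
      refine lt_of_lt_of_le ?_ h3
      push_cast
      nlinarith
    have h9 : 2 * F.natDegree < PS S' (Fb F b) a := by exact_mod_cast h8
    refine ⟨fun i => ?_, fun p hp => no_fixed hNF (by omega) hl b a z (by rw [← hK0]; exact hzK) (hc.trans_le h6) p hp⟩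
    have hdeg : (F + Polynomial.C (b + a i : ℤ)).natDegree = F.natDegree := Polynomial.natDegree_add_C
    apply Run7.h462.QA.irr _ (by rw [hdeg]; omega) (Icc 1 N)
    rw [hdeg]
    refine lt_of_lt_of_le h9 ?_
    unfold PS
    apply card_le_card
    intro n hn
    rw [mem_filter] at hn ⊢
    refine ⟨hS1 hn.1, ?_⟩
    rw [Polynomial.eval_add, Polynomial.eval_C]
    have := hn.2 i
    rwa [Run7.h824.PA.eval_Fb, add_assoc] at this
  · obtain ⟨h6, h7⟩ := hgood z hz1 hz2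
    refine ⟨h6, le_trans ?_ (h7.trans hPS)⟩
    apply mul_le_mul_of_nonneg_right
    · linarith
    · have h8 : 0 ≤ S G F b a z := hc.le.trans h6
      positivity

end Pool.Agent.Results.MP_82233c_nt.DensePrimeArguments
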