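import Mathlib
import Pool.Agent.Run7.h18.MK.Sys4

set_option autoImplicit false

/-!
# Simultaneous primes `p`, `a_i + f_i(p)`: almost all constant terms, all polynomials at once, small `p`

Uses project MK of this run (the one-shift law for short shifts, `S_LAW'`), the polynomial Weyl sums
`H373R2.NB.IW_all` and the sifted sums over primes `H373R2.T7.sys_main` (Bombieri-Vinogradov) of the starting files.
-/

open Polynomial Finset

namespace Pool.Agent.Results.MP_82233c_nt.SystemsAtPrimeArguments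

/-- The number of the residues `r` modulo `q` for which `q` divides `r` times the product of the `a_i + f_i(r)`. -/
noncomputable def rootCount {k : ℕ} (f : Fin k → ℤ[X]) (a : Fin k → ℕ) (q : ℕ) : ℕ :=
  ((range q).filter (fun r : ℕ => (q : ℤ) ∣ (r : ℤ) * ∏ i, ((a i : ℤ) + (f i).eval (r : ℤ)))).card

/-- The expected density: the product of `(1 - rootCount / q) / (1 - 1 / q) ^ (k + 1)` over the primes `q ≤ z`. -/
noncomputable def density {k : ℕ} (f : Fin k → ℤ[X]) (a : Fin k → ℕ) (z : ℕ) : ℝ :=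
  ∏ q ∈ (Icc 1 z).filter Nat.Prime, (1 - (rootCount f a q : ℝ) / q) / (1 - 1 / (q : ℝ)) ^ (k + 1)

/-- The sum of `log p` times the product of the logarithms of the `a_i + f_i(p)` over the primes `p ≤ x` for which all
of them are primes. -/
noncomputable def primeSum {k : ℕ} (f : Fin k → ℤ[X]) (a : Fin k → ℕ) (x : ℕ) : ℝ :=
  ∑ p ∈ (Icc 1 x).filter (fun p : ℕ => p.Prime ∧ ∀ i, ((a i : ℤ) + (f i).eval (p : ℤ)).toNat.Prime),
    Real.log p * ∏ i, Real.log (((a i : ℤ) + (f i).eval (p : ℤ) : ℤ) : ℝ)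

/-- Let `k ≥ 1`, `d ≥ 1`, `T` and `U` be integers. There are `C` and `B` such that for every `E` and all large `N`, with
`L = log N`, and for every `z` between `L ^ B` and `L ^ E`, all but at most `N ^ k / L ^ U` of the vectors
`(a_1, ..., a_k)` of integers in `[1, N]` have the following property: for ALL systems `f_1, ..., f_k` of integer
polynomials with `1 ≤ deg f_i ≤ d` and coefficients at most `L ^ T` in absolute value and ALL integers `x` with
`N ^ (1/3) L ^ C ≤ x ^ (deg f_i) ≤ N / L ^ C` for all `i`, the numbers `a_i + f_i(m)`, `m ≤ x`, are positive, the primes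
`p ≤ x` for which all `a_i + f_i(p)` are primes, counted with the product of the logarithms, number
`x * density + O(x / L ^ U)`, and if no prime divides the product of `m` and the `a_i + f_i(m)` for all `m`, then the
density is at least `1 / L ^ (k d + 2)` and (if `U ≥ k d + 3`) there is a prime `p ≤ x` for which all the `a_i + f_i(p)`
are primes. -/
theorem result (k d T U : ℕ) (hk : 1 ≤ k) (hd : 1 ≤ d) : ∃ C B : ℕ, ∀ E : ℕ, ∃ N₀ : ℕ, ∀ N : ℕ, N₀ ≤ N → ∀ z : ℕ,
    Real.log N ^ B ≤ z → (z : ℝ) ≤ Real.log N ^ E →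
    ∃ Ex : Finset (Fin k → ℕ), (Ex.card : ℝ) ≤ (N : ℝ) ^ k / Real.log N ^ U ∧
      ∀ a : Fin k → ℕ, (∀ i, 1 ≤ a i ∧ a i ≤ N) → a ∉ Ex →
      ∀ f : Fin k → ℤ[X], (∀ i, 1 ≤ (f i).natDegree ∧ (f i).natDegree ≤ d ∧
        ∀ j, |(((f i).coeff j : ℤ) : ℝ)| ≤ Real.log N ^ T) →
      ∀ x : ℕ, (∀ i, (N : ℝ) ^ (1 / 3 : ℝ) * Real.log N ^ C ≤ (x : ℝ) ^ (f i).natDegree ∧
          (x : ℝ) ^ (f i).natDegree * Real.log N ^ C ≤ N) →
        (∀ i, ∀ m ∈ Icc 1 x, 1 ≤ (a i : ℤ) + (f i).eval (m : ℤ)) ∧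
        |primeSum f a x - x * density f a z| ≤ x / Real.log N ^ U ∧
        ((∀ q : ℕ, q.Prime → ∃ m : ℤ, ¬ (q : ℤ) ∣ m * ∏ i, ((a i : ℤ) + (f i).eval m)) →
          1 / Real.log N ^ (k * d + 2) ≤ density f a z ∧
          (k * d + 3 ≤ U → ∃ p ∈ Icc 1 x, p.Prime ∧ ∀ i, ((a i : ℤ) + (f i).eval (p : ℤ)).toNat.Prime)) := by
  classical
  obtain ⟨C, B, h⟩ := Pool.Agent.Run7.h18.MK.sysp_fin k d T U hk hd
  refine ⟨C, B, fun E => ?_⟩
  obtain ⟨N₁, h⟩ := h E
  obtain ⟨N₂, h2⟩ := Pool.Agent.Run7.h18.MK.ev 1 2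
  refine ⟨N₁ + N₂, fun N hN z hz1 hz2 => ?_⟩
  obtain ⟨Ex, hE1, hE2⟩ := h N (by omega) z hz1 hz2
  obtain ⟨hL2, -⟩ := h2 N (by omega)
  have hL0 : 0 < Real.log (N : ℝ) := by linarith
  refine ⟨Ex, hE1, fun a ha haE f hf x hx12 => ?_⟩
  obtain ⟨a1, a2⟩ := hE2 a (by
    rw [Fintype.mem_piFinset]
    intro i
    exact mem_Icc.2 (ha i)) haE f hf
  obtain ⟨a3, a4⟩ := a2 x hx12
  have hroot : ∀ p : ℕ, rootCount f a p =
      Pool.Agent.H373R2.T7.nuB (Pool.Agent.Run7.h18.MK.Rt (X * Pool.Agent.Run7.h18.MK.gP f a) 0) p := by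
    intro p
    unfold rootCount Pool.Agent.H373R2.T7.nuB Pool.Agent.Run7.h18.MK.Rt
    simp only [eval_mul, eval_X, Pool.Agent.Run7.h18.MK.gP_eval, zero_add]
  have hden : density f a z = Pool.Agent.Run7.h18.MK.dens (X * Pool.Agent.Run7.h18.MK.gP f a) (k + 1) z := by
    unfold density Pool.Agent.Run7.h18.MK.dens Pool.Agent.H373R2.T7.Vz Pool.Agent.H373R2.T7.pz
    rw [prod_div_distrib, prod_pow, div_eq_inv_mul, inv_pow]
    congr 1
    exact prod_congr rfl fun p _ => by rw [hroot]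
  have hsum : primeSum f a x = ∑ m ∈ Icc 1 x, Pool.Agent.R460.SQ.thp m *
      ∏ i, Pool.Agent.R460.SQ.thp ((a i : ℤ) + (f i).eval (m : ℤ)).toNat := by
    unfold primeSum Pool.Agent.R460.SQ.thp
    rw [sum_filter]
    refine sum_congr rfl fun m hm => ?_
    have h6 : ∀ i, ((((a i : ℤ) + (f i).eval (m : ℤ)).toNat : ℕ) : ℝ) = (((a i : ℤ) + (f i).eval (m : ℤ) : ℤ) : ℝ) := by
      intro i
      have h5 := a3 i m hm
      rw [← Int.cast_natCast, Int.toNat_of_nonneg (by omega)]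
    simp only [h6]
    rw [prod_ite_zero]
    simp only [mem_univ, true_imp_iff]
    by_cases h7 : m.Prime
    · by_cases h8 : ∀ i, ((a i : ℤ) + (f i).eval (m : ℤ)).toNat.Prime
      · rw [if_pos ⟨h7, h8⟩, if_pos h7, if_pos h8]
      · rw [if_neg (fun h => h8 h.2), if_neg h8, mul_zero]
    · rw [if_neg (fun h => h7 h.1), if_neg h7, zero_mul]
  have hfixeq : (∀ q : ℕ, q.Prime → ∃ m : ℤ, ¬ (q : ℤ) ∣ m * ∏ i, ((a i : ℤ) + (f i).eval m)) →
      1 / Real.log N ^ (k * d + 2) ≤ density f a z := by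
    intro hfix
    rw [hden]
    apply a1
    intro p hp
    obtain ⟨m, hm⟩ := hfix p hp
    exact ⟨m, by rw [Pool.Agent.Run7.h18.MK.gP_eval]; exact hm⟩
  have hmain : |primeSum f a x - x * density f a z| ≤ x / Real.log N ^ U := by
    rw [hden, hsum]
    exact a4
  refine ⟨a3, hmain, fun hfix => ⟨hfixeq hfix, fun hU => ?_⟩⟩
  by_contra hcon
  push Not at hcon
  have h7 : primeSum f a x = 0 := by
    unfold primeSum
    rw [filter_eq_empty_iff.2, sum_empty]
    intro m hm h8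
    obtain ⟨i, hi⟩ := hcon m hm h8.1
    exact hi (h8.2 i)
  rw [h7, zero_sub, abs_neg] at hmain
  have h8 := hfixeq hfix
  obtain ⟨hx1, -⟩ := hx12 ⟨0, hk⟩
  have hxe : (0 : ℝ) < (x : ℝ) ^ (f ⟨0, hk⟩).natDegree := by
    refine lt_of_lt_of_le ?_ hx1
    have : (0 : ℝ) < N := by
      have h9 : N ≠ 0 := by
        intro h9
        rw [h9, Nat.cast_zero, Real.log_zero] at hL2
        linarith
      exact_mod_cast Nat.pos_of_ne_zero h9
    positivity
  have hx0 : (0 : ℝ) < x := by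
    rcases Nat.eq_zero_or_pos x with h | h
    · have := (hf ⟨0, hk⟩).1
      rw [h, Nat.cast_zero, zero_pow (by omega)] at hxe
      exact absurd hxe (lt_irrefl _)
    · exact_mod_cast h
  have h9 : (x : ℝ) * (1 / Real.log N ^ (k * d + 2)) ≤ x / Real.log N ^ U :=
    (mul_le_mul_of_nonneg_left h8 hx0.le).trans ((le_abs_self _).trans hmain)
  have h10 : (x : ℝ) / Real.log N ^ U < x * (1 / Real.log N ^ (k * d + 2)) := by
    rw [mul_one_div]
    apply div_lt_div_of_pos_left hx0 (by positivity)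
    calc Real.log (N : ℝ) ^ (k * d + 2) < Real.log (N : ℝ) ^ (k * d + 3) := pow_lt_pow_right₀ (by linarith) (by omega)
      _ ≤ _ := pow_le_pow_right₀ (by linarith) hU
  linarith

end Pool.Agent.Results.MP_82233c_nt.SystemsAtPrimeArguments
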